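import Pool.Agent.Q83.GaborRep

/-!
# Bounded orbit representations of Gabor frames: the two index sets

A Gabor frame admits a bounded representation indexed by the natural numbers if and only if it
admits one indexed by the integers, and if and only if it is a Riesz basis; in that case every
ordering has a bounded representation.
-/

set_option autoImplicit false
open MeasureTheory

namespace Pool.Agent.Results.MP_fbf723_an.Both

open Pool.Agent.Results.MP_6c6e33_an.GaborOrbit Q83.GaborRep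

/-- The family `f` admits a bounded `I`-representation: some ordering of it indexed by `I` has a
bounded representation. -/
def Admits (I : Type) [Add I] [One I] (f : ℤ × ℤ → L2) : Prop :=
  ∃ σ : I ≃ ℤ × ℤ, BoundedRep (fun k => f (σ k))

theorem result (a b : ℝ) (ha : 0 < a) (hb : 0 < b) (g : L2) (f : ℤ × ℤ → L2)
    (hf : IsGaborSystem a b g f) (hfr : IsFrame f) :
    (Admits ℕ f ↔ Admits ℤ f) ∧ (Admits ℕ f ↔ IsRieszBasis f) ∧
    (IsRieszBasis f → (∀ σ : ℕ ≃ ℤ × ℤ, BoundedRep (fun k => f (σ k))) ∧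
      ∀ σ : ℤ ≃ ℤ × ℤ, BoundedRep (fun k => f (σ k))) := by
  have hN : IsRieszBasis f → ∀ σ : ℕ ≃ ℤ × ℤ, BoundedRep (fun k => f (σ k)) := fun hR σ =>
    (riesz_rep (add_left_injective 1) f hR σ).rep
  have hZ : IsRieszBasis f → ∀ σ : ℤ ≃ ℤ × ℤ, BoundedRep (fun k => f (σ k)) := fun hR σ =>
    (riesz_rep (add_left_injective 1) f hR σ).rep
  have hN' : Admits ℕ f → IsRieszBasis f := by
    rintro ⟨τ, hτ⟩
    by_contra hR
    exact (Pool.Agent.Results.MP_6c6e33_an.GaborOrbit.result a b ha hb g f hf ⟨hfr, hR⟩).1 ⟨τ, hτ.orbit⟩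
  have hZ' : Admits ℤ f → IsRieszBasis f := by
    rintro ⟨τ, hτ⟩
    by_contra hR
    exact (Pool.Agent.Results.MP_6c6e33_an.GaborOrbit.result a b ha hb g f hf ⟨hfr, hR⟩).2 ⟨τ, hτ.orbit⟩
  obtain ⟨σ⟩ := nonempty_equiv_of_countable (α := ℕ) (β := ℤ × ℤ)
  obtain ⟨τ⟩ := nonempty_equiv_of_countable (α := ℤ) (β := ℤ × ℤ)
  exact ⟨⟨fun h => ⟨τ, hZ (hN' h) τ⟩, fun h => ⟨σ, hN (hZ' h) σ⟩⟩,
    ⟨hN', fun h => ⟨σ, hN h σ⟩⟩, fun h => ⟨hN h, hZ h⟩⟩

end Pool.Agent.Results.MP_fbf723_an.Both
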